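import Pool.Agent.Helper35.NI.Defs
import Pool.Agent.Helper84.GD.Basic

/-!
# Project FQ (MP_0f6f3f_an), layer NI: the data of a lattice in a group with group data

`ndOf D Γ`: the data `ND Γ ι` of `Helper35/NI/Defs.lean` for a discrete subgroup `Γ` of a group with group data `D : GD 𝔾 ι` (`Helper84/GD/Defs.lean`). The matrices are `rho l g = L diag(v) R`, `v k = exp(∑ (top - n) μ)`, so the
normalised Gram matrix is `∑ p_k R_k R_kᵀ`, `p_k = v_k² / ∑ v²`, `p_k ≤ exp(-2 μ_l) p_0` for `k ≠ 0`.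
-/

set_option autoImplicit false
set_option linter.unusedSectionVars false

open MeasureTheory Filter Topology Matrix

namespace Pool.Agent.Helper7.NI

open Pool.Agent.Helper20.TB Pool.Agent.Helper84.GDL Pool.Agent.Helper35.NI

section Mat

variable {m : ℕ} {L R : Matrix (Fin m) (Fin m) ℝ} {v : Fin m → ℝ}

theorem hs_eq_trace (A : Matrix (Fin m) (Fin m) ℝ) : hs A = (Aᵀ * A).trace := by
  unfold hs
  rw [Matrix.trace, Finset.sum_comm]
  refine Finset.sum_congr rfl fun j _ => ?_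
  rw [Matrix.diag_apply, Matrix.mul_apply]
  exact Finset.sum_congr rfl fun i _ => by rw [Matrix.transpose_apply, sq]

theorem gram_ldr (hL : Lᵀ * L = 1) :
    (L * diagonal v * R)ᵀ * (L * diagonal v * R) = Rᵀ * diagonal (fun k => v k ^ 2) * R := by
  rw [transpose_mul, transpose_mul, diagonal_transpose]
  calc Rᵀ * (diagonal v * Lᵀ) * (L * diagonal v * R) = Rᵀ * (diagonal v * (Lᵀ * L) * diagonal v) * R := by
        simp only [Matrix.mul_assoc]
    _ = Rᵀ * diagonal (fun k => v k ^ 2) * R := by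
        rw [hL, Matrix.mul_one, diagonal_mul_diagonal]
        simp only [sq]

theorem orth_mul (hR : Rᵀ * R = 1) : R * Rᵀ = 1 := mul_eq_one_comm.1 hR

theorem hs_ldr (hL : Lᵀ * L = 1) (hR : Rᵀ * R = 1) : hs (L * diagonal v * R) = ∑ k, v k ^ 2 := by
  rw [hs_eq_trace, gram_ldr hL, Matrix.trace_mul_comm, ← Matrix.mul_assoc, orth_mul hR, Matrix.one_mul, trace_diagonal]

/-- The normalised weights. -/
noncomputable def pw (v : Fin m → ℝ) (k : Fin m) : ℝ := v k ^ 2 / ∑ q, v q ^ 2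

theorem gm_ldr (hL : Lᵀ * L = 1) (hR : Rᵀ * R = 1) :
    gm (L * diagonal v * R) = Rᵀ * diagonal (pw v) * R := by
  unfold gm
  rw [hs_ldr hL hR, gram_ldr hL, ← Matrix.smul_mul, ← Matrix.mul_smul, ← diagonal_smul]
  congr 3
  funext k
  rw [Pi.smul_apply, smul_eq_mul, pw, div_eq_inv_mul]

theorem gm_ldr_apply (hL : Lᵀ * L = 1) (hR : Rᵀ * R = 1) (a b : Fin m) :
    gm (L * diagonal v * R) a b = ∑ k, pw v k * (R k a * R k b) := by
  rw [gm_ldr hL hR, Matrix.mul_apply]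
  refine Finset.sum_congr rfl fun k _ => ?_
  rw [Matrix.mul_diagonal, Matrix.transpose_apply]
  ring

theorem tr_gm (hL : Lᵀ * L = 1) (hR : Rᵀ * R = 1) :
    (gm (L * diagonal v * R) * gm (L * diagonal v * R)).trace = ∑ k, pw v k ^ 2 := by
  rw [gm_ldr hL hR]
  calc (Rᵀ * diagonal (pw v) * R * (Rᵀ * diagonal (pw v) * R)).trace
      = (Rᵀ * (diagonal (pw v) * (R * Rᵀ) * diagonal (pw v) * R)).trace := by simp only [Matrix.mul_assoc]
    _ = (diagonal (fun k => pw v k ^ 2)).trace := by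
        rw [orth_mul hR, Matrix.mul_one, Matrix.trace_mul_comm, Matrix.mul_assoc, orth_mul hR, Matrix.mul_one, diagonal_mul_diagonal]
        simp only [sq]
    _ = ∑ k, pw v k ^ 2 := trace_diagonal _

theorem orth_entry (hR : Rᵀ * R = 1) (a b : Fin m) : |R a b| ≤ 1 := by
  have h1 : (R * Rᵀ) a a = 1 := by rw [orth_mul hR, Matrix.one_apply_eq]
  rw [Matrix.mul_apply] at h1
  have h2 : R a b ^ 2 ≤ 1 := by
    rw [← h1]
    refine le_trans (le_of_eq ?_) (Finset.single_le_sum (f := fun k => R a k * Rᵀ k a) (fun k _ => ?_) (Finset.mem_univ b))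
    · rw [Matrix.transpose_apply, sq]
    · rw [Matrix.transpose_apply]
      exact mul_self_nonneg _
  exact abs_le_one_iff_mul_self_le_one.2 (by rwa [← sq])

theorem orth_row (hR : Rᵀ * R = 1) (a : Fin m) : ∑ k, R a k ^ 2 = 1 := by
  have h1 : (R * Rᵀ) a a = 1 := by rw [orth_mul hR, Matrix.one_apply_eq]
  rw [Matrix.mul_apply] at h1
  rw [← h1]
  exact Finset.sum_congr rfl fun k _ => by rw [Matrix.transpose_apply, sq]

theorem orth_col (hR : Rᵀ * R = 1) (a : Fin m) : ∑ k, R k a ^ 2 = 1 := by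
  have h1 : (Rᵀ * R) a a = 1 := by rw [hR, Matrix.one_apply_eq]
  rw [Matrix.mul_apply] at h1
  rw [← h1]
  exact Finset.sum_congr rfl fun k _ => by rw [Matrix.transpose_apply, sq]

end Mat

section Wt

variable {m : ℕ} {v : Fin (m + 1) → ℝ} {t : ℝ}

theorem sum_sq_pos (hv : ∀ k, 0 < v k) : 0 < ∑ q, v q ^ 2 :=
  Finset.sum_pos (fun k _ => pow_pos (hv k) 2) ⟨0, Finset.mem_univ _⟩

theorem pw_nonneg (v : Fin (m + 1) → ℝ) (k : Fin (m + 1)) : 0 ≤ pw v k :=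
  div_nonneg (sq_nonneg _) (Finset.sum_nonneg fun _ _ => sq_nonneg _)

theorem sum_pw (hv : ∀ k, 0 < v k) : ∑ k, pw v k = 1 := by
  unfold pw
  rw [← Finset.sum_div, div_self (sum_sq_pos hv).ne']

theorem pw_le (hv : ∀ k, 0 < v k) {k : Fin (m + 1)} (h : v k ≤ Real.exp (-t) * v 0) : pw v k ≤ Real.exp (-(2 * t)) * pw v 0 := by
  unfold pw
  rw [← mul_div_assoc]
  refine div_le_div_of_nonneg_right ?_ (sum_sq_pos hv).le
  have h1 := pow_le_pow_left₀ (hv k).le h 2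
  rw [mul_pow, ← Real.exp_nat_mul] at h1
  refine h1.trans (le_of_eq ?_)
  congr 2
  push_cast
  ring

theorem pw_eq {k : Fin (m + 1)} (h : v k = Real.exp (-t) * v 0) : pw v k = Real.exp (-(2 * t)) * pw v 0 := by
  unfold pw
  rw [h, mul_pow, ← Real.exp_nat_mul, ← mul_div_assoc]
  congr 3
  push_cast
  ring

theorem pw_zero_le (hv : ∀ k, 0 < v k) : pw v 0 ≤ 1 := by
  rw [← sum_pw hv]
  exact Finset.single_le_sum (fun k _ => pw_nonneg v k) (Finset.mem_univ 0)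

/-- The weight of the top vector is close to one. -/
theorem one_sub_pw (hv : ∀ k, 0 < v k) (h : ∀ k, k ≠ 0 → v k ≤ Real.exp (-t) * v 0) :
    1 - pw v 0 ≤ (m + 1 : ℕ) * Real.exp (-(2 * t)) := by
  have h1 := sum_pw hv
  rw [Fin.sum_univ_succ] at h1
  have h2 : ∑ k : Fin m, pw v k.succ ≤ ∑ _k : Fin m, Real.exp (-(2 * t)) := by
    refine Finset.sum_le_sum fun k _ => (pw_le hv (h _ (Fin.succ_ne_zero k))).trans ?_
    exact mul_le_of_le_one_right (Real.exp_pos _).le (pw_zero_le hv)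
  rw [Finset.sum_const, Finset.card_univ, Fintype.card_fin, nsmul_eq_mul] at h2
  have h3 : (0 : ℝ) ≤ Real.exp (-(2 * t)) := (Real.exp_pos _).le
  push_cast
  linarith

theorem pw_zero_ge (hv : ∀ k, 0 < v k) (ht : 0 ≤ t) (h : ∀ k, k ≠ 0 → v k ≤ Real.exp (-t) * v 0) :
    1 ≤ (m + 1 : ℕ) * pw v 0 := by
  rw [← sum_pw hv]
  have h1 : ∑ k, pw v k ≤ ∑ _k : Fin (m + 1), pw v 0 := by
    refine Finset.sum_le_sum fun k _ => ?_
    by_cases hk : k = 0
    · rw [hk]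
    · refine (pw_le hv (h k hk)).trans ?_
      exact mul_le_of_le_one_left (pw_nonneg v 0) (Real.exp_le_one_iff.2 (by linarith))
  rwa [Finset.sum_const, Finset.card_univ, Fintype.card_fin, nsmul_eq_mul] at h1

theorem one_sub_sum_sq_le (hv : ∀ k, 0 < v k) (h : ∀ k, k ≠ 0 → v k ≤ Real.exp (-t) * v 0) :
    1 - ∑ k, pw v k ^ 2 ≤ 2 * (m + 1 : ℕ) * Real.exp (-(2 * t)) := by
  have h1 : pw v 0 ^ 2 ≤ ∑ k, pw v k ^ 2 := Finset.single_le_sum (fun k _ => sq_nonneg (pw v k)) (Finset.mem_univ 0)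
  have h2 := one_sub_pw hv h
  have h3 := pw_zero_le hv
  have h4 := pw_nonneg v 0
  nlinarith

theorem le_one_sub_sum_sq (hv : ∀ k, 0 < v k) (ht : 0 ≤ t) (h : ∀ k, k ≠ 0 → v k ≤ Real.exp (-t) * v 0) {k : Fin (m + 1)}
    (hk : k ≠ 0) (hk' : v k = Real.exp (-t) * v 0) :
    Real.exp (-(2 * t)) ≤ ((m + 1 : ℕ) : ℝ) ^ 2 * (1 - ∑ k, pw v k ^ 2) := by
  have e1 : 1 - ∑ k, pw v k ^ 2 = ∑ k, pw v k * (1 - pw v k) := by
    have h0 := sum_pw hv
    have h00 : ∑ k, pw v k * (1 - pw v k) = ∑ k, (pw v k - pw v k ^ 2) := Finset.sum_congr rfl fun k _ => by ring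
    rw [h00, Finset.sum_sub_distrib, h0]
  have hle : ∀ k, pw v k ≤ 1 := fun k => by
    rw [← sum_pw hv]
    exact Finset.single_le_sum (fun k _ => pw_nonneg v k) (Finset.mem_univ k)
  have h1 : pw v 0 * (1 - pw v 0) ≤ 1 - ∑ k, pw v k ^ 2 := by
    rw [e1]
    exact Finset.single_le_sum (f := fun k => pw v k * (1 - pw v k))
      (fun k _ => mul_nonneg (pw_nonneg v k) (by linarith [hle k])) (Finset.mem_univ 0)
  have h2 : pw v k ≤ 1 - pw v 0 := by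
    have h3 := sum_pw hv
    have h4 : pw v 0 + pw v k ≤ ∑ k, pw v k := by
      rw [← Finset.sum_pair (Ne.symm hk)]
      exact Finset.sum_le_sum_of_subset_of_nonneg (Finset.subset_univ _) fun k _ _ => pw_nonneg v k
    linarith
  rw [pw_eq hk'] at h2
  have h5 := pw_zero_ge hv ht h
  set N : ℝ := ((m + 1 : ℕ) : ℝ) with hN
  set E := Real.exp (-(2 * t)) with hE
  have hE0 : 0 < E := Real.exp_pos _
  have hp := pw_nonneg v 0
  -- E ≤ (N p0)^2 E ≤ N^2 p0 (1 - p0)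
  have h6 : E ≤ (N * pw v 0) ^ 2 * E := by
    have h7 : 1 ≤ (N * pw v 0) ^ 2 := one_le_pow₀ h5
    nlinarith
  have h8 : (N * pw v 0) ^ 2 * E ≤ N ^ 2 * (pw v 0 * (1 - pw v 0)) := by
    have h9 : pw v 0 * (E * pw v 0) ≤ pw v 0 * (1 - pw v 0) := mul_le_mul_of_nonneg_left h2 hp
    have h10 : 0 ≤ N ^ 2 := sq_nonneg _
    calc (N * pw v 0) ^ 2 * E = N ^ 2 * (pw v 0 * (E * pw v 0)) := by ring
      _ ≤ N ^ 2 * (pw v 0 * (1 - pw v 0)) := mul_le_mul_of_nonneg_left h9 h10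
  have h11 : N ^ 2 * (pw v 0 * (1 - pw v 0)) ≤ N ^ 2 * (1 - ∑ k, pw v k ^ 2) :=
    mul_le_mul_of_nonneg_left h1 (sq_nonneg _)
  linarith

/-- The normalised Gram matrix is close to the projection. -/
theorem near_gm {R : Matrix (Fin (m + 1)) (Fin (m + 1)) ℝ} (hR : Rᵀ * R = 1) (hv : ∀ k, 0 < v k) (ht : 0 ≤ t)
    (h : ∀ k, k ≠ 0 → v k ≤ Real.exp (-t) * v 0) (a b : Fin (m + 1)) :
    |∑ k, pw v k * (R k a * R k b) - R 0 a * R 0 b| ≤ 2 * (m + 1 : ℕ) * Real.exp (-t) := by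
  have h1 := sum_pw hv
  rw [Fin.sum_univ_succ] at h1 ⊢
  have e : pw v 0 * (R 0 a * R 0 b) + ∑ k : Fin m, pw v k.succ * (R k.succ a * R k.succ b) - R 0 a * R 0 b =
      (pw v 0 - 1) * (R 0 a * R 0 b) + ∑ k : Fin m, pw v k.succ * (R k.succ a * R k.succ b) := by ring
  have hab : ∀ k, |R k a * R k b| ≤ 1 := fun k => by
    rw [abs_mul]
    exact mul_le_one₀ (orth_entry hR k a) (abs_nonneg _) (orth_entry hR k b)
  rw [e]
  refine (abs_add_le _ _).trans ?_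
  have h2 : |(pw v 0 - 1) * (R 0 a * R 0 b)| ≤ 1 - pw v 0 := by
    rw [abs_mul, abs_of_nonpos (by linarith [pw_zero_le hv] : pw v 0 - 1 ≤ 0)]
    have h4 : 0 ≤ 1 - pw v 0 := by linarith [pw_zero_le hv]
    have := mul_le_of_le_one_right h4 (hab 0)
    linarith
  have h3 : |∑ k : Fin m, pw v k.succ * (R k.succ a * R k.succ b)| ≤ ∑ k : Fin m, pw v k.succ := by
    refine (Finset.abs_sum_le_sum_abs _ _).trans (Finset.sum_le_sum fun k _ => ?_)
    rw [abs_mul, abs_of_nonneg (pw_nonneg v _)]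
    exact mul_le_of_le_one_right (pw_nonneg v _) (hab _)
  have h4 := one_sub_pw hv h
  have h5 : Real.exp (-(2 * t)) ≤ Real.exp (-t) := Real.exp_le_exp.2 (by linarith)
  have h6 : ((m + 1 : ℕ) : ℝ) * Real.exp (-(2 * t)) ≤ (m + 1 : ℕ) * Real.exp (-t) :=
    mul_le_mul_of_nonneg_left h5 (Nat.cast_nonneg _)
  linarith

/-- The logarithm of the Hilbert–Schmidt norm. -/
theorem log_sum_sq (hv : ∀ k, 0 < v k) (h : ∀ k, v k ≤ v 0) :
    |Real.log (∑ k, v k ^ 2) - 2 * Real.log (v 0)| ≤ Real.log ((m + 1 : ℕ) : ℝ) := by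
  have h0 := hv 0
  have h1 : v 0 ^ 2 ≤ ∑ k, v k ^ 2 := Finset.single_le_sum (f := fun k => v k ^ 2) (fun k _ => sq_nonneg (v k)) (Finset.mem_univ 0)
  have h2 : ∑ k, v k ^ 2 ≤ ((m + 1 : ℕ) : ℝ) * v 0 ^ 2 := by
    have h3 : ∑ k, v k ^ 2 ≤ ∑ _k : Fin (m + 1), v 0 ^ 2 := Finset.sum_le_sum fun k _ => pow_le_pow_left₀ (hv k).le (h k) 2
    rwa [Finset.sum_const, Finset.card_univ, Fintype.card_fin, nsmul_eq_mul] at h3
  have h4 := Real.log_le_log (pow_pos h0 2) h1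
  have h5 := Real.log_le_log (sum_sq_pos hv) h2
  have hm : (0 : ℝ) < ((m + 1 : ℕ) : ℝ) := by positivity
  rw [Real.log_pow] at h4
  rw [Real.log_mul hm.ne' (pow_pos h0 2).ne', Real.log_pow] at h5
  push_cast at h4 h5 ⊢
  rw [abs_of_nonneg (by linarith)]
  linarith

end Wt

section Inst

variable {𝔾 : Type} [Group 𝔾] [TopologicalSpace 𝔾] {ι : Type} [Fintype ι] [DecidableEq ι] (D : GD 𝔾 ι)

/-- The diagonal entries. -/
noncomputable def dv (l : ι) (g : 𝔾) (k : Fin (D.d l + 1)) : ℝ := Real.exp (∑ j, (D.top l j - D.n l k j) * D.mu g j)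

theorem dv_pos (l : ι) (g : 𝔾) (k : Fin (D.d l + 1)) : 0 < dv D l g k := Real.exp_pos _

theorem dv_zero (l : ι) (g : 𝔾) : dv D l g 0 = Real.exp (D.tw l g) := by
  unfold dv GD.tw
  congr 1
  exact Finset.sum_congr rfl fun j _ => by rw [D.n_zero, Nat.cast_zero, sub_zero]

theorem dv_eq (l : ι) (g : 𝔾) (k : Fin (D.d l + 1)) : dv D l g k = Real.exp (-∑ j, (D.n l k j : ℝ) * D.mu g j) * dv D l g 0 := by
  rw [dv_zero, ← Real.exp_add]
  unfold dv GD.tw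
  congr 1
  rw [← Finset.sum_neg_distrib, ← Finset.sum_add_distrib]
  exact Finset.sum_congr rfl fun j _ => by ring

theorem dv_le (l : ι) (g : 𝔾) {k : Fin (D.d l + 1)} (hk : k ≠ 0) : dv D l g k ≤ Real.exp (-D.mu g l) * dv D l g 0 := by
  rw [dv_eq]
  refine mul_le_mul_of_nonneg_right (Real.exp_le_exp.2 (neg_le_neg ?_)) (dv_pos D l g 0).le
  have h1 : (1 : ℝ) ≤ D.n l k l := by exact_mod_cast D.n_pos l k hk
  calc D.mu g l ≤ (D.n l k l : ℝ) * D.mu g l := by nlinarith [D.mu_nonneg g l]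
    _ ≤ ∑ j, (D.n l k j : ℝ) * D.mu g j := Finset.single_le_sum (f := fun j => (D.n l k j : ℝ) * D.mu g j)
        (fun j _ => mul_nonneg (Nat.cast_nonneg _) (D.mu_nonneg g j)) (Finset.mem_univ l)

theorem dv_le' (l : ι) (g : 𝔾) (k : Fin (D.d l + 1)) : dv D l g k ≤ dv D l g 0 := by
  by_cases hk : k = 0
  · rw [hk]
  · refine (dv_le D l g hk).trans (mul_le_of_le_one_left (dv_pos D l g 0).le (Real.exp_le_one_iff.2 ?_))
    linarith [D.mu_nonneg g l]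

theorem dv_eq' (l : ι) (g : 𝔾) {k : Fin (D.d l + 1)} (hk : ∀ j, D.n l k j = if j = l then 1 else 0) :
    dv D l g k = Real.exp (-D.mu g l) * dv D l g 0 := by
  rw [dv_eq]
  congr 3
  rw [Finset.sum_eq_single l]
  · rw [hk l, if_pos rfl, Nat.cast_one, one_mul]
  · intro j _ hj
    rw [hk j, if_neg hj, Nat.cast_zero, zero_mul]
  · intro h
    exact absurd (Finset.mem_univ _) h

theorem rho_eq (l : ι) (g : 𝔾) : D.rho l g = D.rho l (D.kL g) * diagonal (dv D l g) * D.rho l (D.kR g) := by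
  conv_lhs => rw [D.kak g]
  rw [map_mul, map_mul, D.rho_ea]
  rfl

theorem orthL (l : ι) (g : 𝔾) : (D.rho l (D.kL g))ᵀ * D.rho l (D.kL g) = 1 := D.orth l _ (D.kL_mem g)

theorem orthR (l : ι) (g : 𝔾) : (D.rho l (D.kR g))ᵀ * D.rho l (D.kR g) = 1 := D.orth l _ (D.kR_mem g)

theorem orth_transpose {m : ℕ} {R : Matrix (Fin m) (Fin m) ℝ} (hR : Rᵀ * R = 1) : (Rᵀ)ᵀ * Rᵀ = 1 := by
  rw [transpose_transpose, orth_mul hR]

theorem rho_eq_transpose (l : ι) (g : 𝔾) :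
    (D.rho l g)ᵀ = (D.rho l (D.kR g))ᵀ * diagonal (dv D l g) * (D.rho l (D.kL g))ᵀ := by
  conv_lhs => rw [rho_eq D l g]
  rw [transpose_mul, transpose_mul, diagonal_transpose, Matrix.mul_assoc]

/-- The constant. -/
noncomputable def cst0 : ℝ := 1 + ∑ l, (2 * ((D.d l + 1 : ℕ) : ℝ) ^ 2 + ∑ q, |D.C l q| * Real.log ((D.d q + 1 : ℕ) : ℝ))

theorem term_nonneg (l : ι) : 0 ≤ 2 * ((D.d l + 1 : ℕ) : ℝ) ^ 2 + ∑ q, |D.C l q| * Real.log ((D.d q + 1 : ℕ) : ℝ) := by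
  have h1 : 0 ≤ ∑ q, |D.C l q| * Real.log ((D.d q + 1 : ℕ) : ℝ) :=
    Finset.sum_nonneg fun q _ => mul_nonneg (abs_nonneg _) (Real.log_natCast_nonneg _)
  positivity

theorem cst0_ge (l : ι) : 2 * ((D.d l + 1 : ℕ) : ℝ) ^ 2 + ∑ q, |D.C l q| * Real.log ((D.d q + 1 : ℕ) : ℝ) ≤ cst0 D := by
  have h1 := Finset.single_le_sum (f := fun l => 2 * ((D.d l + 1 : ℕ) : ℝ) ^ 2 + ∑ q, |D.C l q| * Real.log ((D.d q + 1 : ℕ) : ℝ))
    (fun l _ => term_nonneg D l) (Finset.mem_univ l)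
  unfold cst0
  linarith

theorem cst0_ge1 (l : ι) : 2 * ((D.d l + 1 : ℕ) : ℝ) ^ 2 ≤ cst0 D := by
  have h1 : 0 ≤ ∑ q, |D.C l q| * Real.log ((D.d q + 1 : ℕ) : ℝ) :=
    Finset.sum_nonneg fun q _ => mul_nonneg (abs_nonneg _) (Real.log_natCast_nonneg _)
  linarith [cst0_ge D l]

theorem cst0_ge2 (l : ι) : 2 * ((D.d l + 1 : ℕ) : ℝ) ≤ cst0 D := by
  have h1 := cst0_ge1 D l
  have h2 : (1 : ℝ) ≤ ((D.d l + 1 : ℕ) : ℝ) := by exact_mod_cast Nat.le_add_left 1 _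
  nlinarith

/-- **The data of a lattice.** -/
noncomputable def ndOf [IsTopologicalGroup 𝔾] [T2Space 𝔾] (Γ : Subgroup 𝔾) [DiscreteTopology Γ]
    (h1 : ∀ l, ∃ i, ∀ j, D.n l i j = if j = l then 1 else 0) : ND Γ ι where
  n l := D.d l + 1
  r l := (D.rho l).comp Γ.subtype
  gap g i := D.mu (g : 𝔾) i
  xR l g := WithLp.toLp 2 (D.xv l (g : 𝔾))
  xL l g := WithLp.toLp 2 (D.yv l (g : 𝔾))
  co l q := D.C l q / 2
  C0 := cst0 D
  one_le := by
    unfold cst0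
    have := Finset.sum_nonneg fun l (_ : l ∈ (Finset.univ : Finset ι)) => term_nonneg D l
    linarith
  nonneg g i := D.mu_nonneg _ i
  fin N := (D.gp Γ).fin N
  uR l g := by
    have h := orth_row (orthR D l (g : 𝔾)) 0
    rw [EuclideanSpace.norm_eq, Real.sqrt_eq_one]
    simp only [Real.norm_eq_abs, sq_abs]
    exact h
  uL l g := by
    have h := orth_col (orthL D l (g : 𝔾)) 0
    rw [EuclideanSpace.norm_eq, Real.sqrt_eq_one]
    simp only [Real.norm_eq_abs, sq_abs]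
    exact h
  nearR l g a b := by
    change |gm (D.rho l (g : 𝔾)) a b - D.rho l (D.kR (g : 𝔾)) 0 a * D.rho l (D.kR (g : 𝔾)) 0 b| ≤ cst0 D * Real.exp (-D.mu (g : 𝔾) l)
    rw [rho_eq D l (g : 𝔾), gm_ldr_apply (orthL D l _) (orthR D l _)]
    refine (near_gm (orthR D l _) (dv_pos D l _) (D.mu_nonneg _ l) (fun k hk => dv_le D l _ hk) a b).trans ?_
    exact mul_le_mul_of_nonneg_right (cst0_ge2 D l) (Real.exp_pos _).le
  nearL l g a b := by
    change |gm (D.rho l (g : 𝔾))ᵀ a b - D.rho l (D.kL (g : 𝔾)) a 0 * D.rho l (D.kL (g : 𝔾)) b 0| ≤ cst0 D * Real.exp (-D.mu (g : 𝔾) l)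
    rw [rho_eq_transpose D l (g : 𝔾), gm_ldr_apply (orth_transpose (orthR D l _)) (orth_transpose (orthL D l _))]
    refine (near_gm (orth_transpose (orthL D l _)) (dv_pos D l _) (D.mu_nonneg _ l) (fun k hk => dv_le D l _ hk) a b).trans ?_
    exact mul_le_mul_of_nonneg_right (cst0_ge2 D l) (Real.exp_pos _).le
  lowR l g := by
    obtain ⟨k, hk⟩ := h1 l
    have hk0 : k ≠ 0 := by
      intro h0
      have h2 := hk l
      rw [h0, D.n_zero, if_pos rfl] at h2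
      exact absurd h2 (by norm_num)
    change Real.exp (-(2 * D.mu (g : 𝔾) l)) ≤ cst0 D * (1 - (gm (D.rho l (g : 𝔾)) * gm (D.rho l (g : 𝔾))).trace)
    rw [rho_eq D l (g : 𝔾), tr_gm (orthL D l _) (orthR D l _)]
    have h2 := le_one_sub_sum_sq (dv_pos D l (g : 𝔾)) (D.mu_nonneg _ l) (fun k hk => dv_le D l _ hk) hk0 (dv_eq' D l _ hk)
    have h3 : 0 ≤ 1 - ∑ k, pw (dv D l (g : 𝔾)) k ^ 2 := by
      by_contra hneg
      have h4 := Real.exp_pos (-(2 * D.mu (g : 𝔾) l))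
      have h5 : (0 : ℝ) ≤ ((D.d l + 1 : ℕ) : ℝ) ^ 2 := sq_nonneg _
      nlinarith
    refine h2.trans (mul_le_mul_of_nonneg_right ?_ h3)
    have h4 := cst0_ge1 D l
    have h5 : (0 : ℝ) ≤ ((D.d l + 1 : ℕ) : ℝ) ^ 2 := sq_nonneg _
    linarith
  size g l := by
    change |D.mu (g : 𝔾) l - ∑ q, D.C l q / 2 * Real.log (hs (D.rho q (g : 𝔾)))| ≤ cst0 D
    have e1 : D.mu (g : 𝔾) l - ∑ q, D.C l q / 2 * Real.log (hs (D.rho q (g : 𝔾))) =
        -∑ q, D.C l q / 2 * (Real.log (∑ k, dv D q (g : 𝔾) k ^ 2) - 2 * Real.log (dv D q (g : 𝔾) 0)) := by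
      rw [D.mu_eq, ← Finset.sum_neg_distrib, ← Finset.sum_sub_distrib]
      refine Finset.sum_congr rfl fun q _ => ?_
      conv_lhs => rw [rho_eq D q (g : 𝔾), hs_ldr (orthL D q _) (orthR D q _)]
      rw [dv_zero, Real.log_exp]
      ring
    rw [e1, abs_neg]
    refine (Finset.abs_sum_le_sum_abs _ _).trans ?_
    have h2 : ∑ q, |D.C l q / 2 * (Real.log (∑ k, dv D q (g : 𝔾) k ^ 2) - 2 * Real.log (dv D q (g : 𝔾) 0))| ≤
        ∑ q, |D.C l q| * Real.log ((D.d q + 1 : ℕ) : ℝ) := by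
      refine Finset.sum_le_sum fun q _ => ?_
      rw [abs_mul]
      have h3 := log_sum_sq (dv_pos D q (g : 𝔾)) (dv_le' D q _)
      refine mul_le_mul ?_ h3 (abs_nonneg _) (abs_nonneg _)
      rw [abs_div, abs_two]
      linarith [abs_nonneg (D.C l q)]
    have h4 := cst0_ge D l
    have h5 : (0 : ℝ) ≤ 2 * ((D.d l + 1 : ℕ) : ℝ) ^ 2 := by positivity
    linarith
  upR l g := by
    change 1 - (gm (D.rho l (g : 𝔾)) * gm (D.rho l (g : 𝔾))).trace ≤ cst0 D * Real.exp (-(2 * D.mu (g : 𝔾) l))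
    rw [rho_eq D l (g : 𝔾), tr_gm (orthL D l _) (orthR D l _)]
    refine (one_sub_sum_sq_le (dv_pos D l (g : 𝔾)) fun k hk => dv_le D l _ hk).trans ?_
    exact mul_le_mul_of_nonneg_right (cst0_ge2 D l) (Real.exp_pos _).le

end Inst

end Pool.Agent.Helper7.NI
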